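import Pool.Agent.Run7.h465.UP.Final

/-!
# MP_199925_al, Q2: a universal countable periodic locally nilpotent group exists

For every prime `p` consider finite `p`-groups with a chief series, coded by a total preorder which
is inherited by subgroups.  Every locally finite `p`-group has such a preorder (compactness), and
finite `p`-groups with these preorders have the amalgamation property (Higman's argument with
wreath products), so that there is a universal countable locally finite `p`-group.  The restricted
direct product over all primes is a universal countable periodic locally nilpotent group.
-/

set_option autoImplicit false

universe u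

namespace Pool.Agent.Results.MP_199925_al.UniversalLocallyNilpotentGroup

/-- A group is periodic if each of its elements has finite order. -/
def Periodic (G : Type u) [Group G] : Prop := ∀ g : G, IsOfFinOrder g

/-- A group is locally nilpotent if each of its finitely generated subgroups is nilpotent. -/
def LocallyNilpotent (G : Type u) [Group G] : Prop :=
  ∀ H : Subgroup G, H.FG → Group.IsNilpotent H

/-- There is a countable periodic locally nilpotent group `U` in which every countable periodic
locally nilpotent group embeds. -/
theorem result :
    ∃ (U : Type) (_ : Group U), Countable U ∧ Periodic U ∧ LocallyNilpotent U ∧
      ∀ (G : Type u) [Group G], Countable G → Periodic G → LocallyNilpotent G →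
        ∃ f : G →* U, Function.Injective f := by
  obtain ⟨U, gU, hc, ht, hn, h⟩ := Run7.h465.UP.final.{u}
  refine ⟨U, gU, hc, ht, fun H hH => ?_, fun G _ hG hGt hGn => h G hG hGt fun s hs => ?_⟩
  · obtain ⟨s, rfl⟩ := hH
    exact hn s s.finite_toSet
  · exact hGn _ ((Subgroup.fg_iff _).2 ⟨s, rfl, hs⟩)

end Pool.Agent.Results.MP_199925_al.UniversalLocallyNilpotentGroup
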